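import Pool.Agent.W5h46.GV.JFam

/-!
# The modular Schanuel conjecture with derivatives at the algebraic points of analytic varieties

Let `τ_1, …, τ_p` (`p ≥ 1`) be analytic functions of `n` variables on a connected open set `U` with values in the
upper half-plane, which are not constant, such that `j(τ_i)` and `j(τ_k)` are algebraically independent over
`ℂ(x_1, …, x_n)` for `i ≠ k`, and let `w_1, …, w_s` (`s ≥ 0`) be analytic functions on `U` no nontrivial combination
of which with integral coefficients is constant. We show that `3 p + s` fixed functions among the `4 p + 2 s` functions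

  `τ_i`, `j(τ_i)`, `j'(τ_i)`, `j''(τ_i)`, `w_k`, `exp(w_k)`

do not satisfy, at the points `x` of height at most `T` with coordinates in a number field of bounded degree, any
approximate relation of bounded degree and of height `T^A`, with the exception of the points on `C T^ε` hypersurfaces of
bounded degree. In particular there are at most `C T^ε |S|^(n-1)` exceptional points with coordinates in `S`, for every
finite set `S` of numbers of height at most `T`. The number `3 p` for `s = 0` is the one predicted by the modular Schanuel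
conjecture with derivatives. The coefficients of the relations are combinations of arbitrary complex numbers
`ξ_1, …, ξ_g` with coefficients which are integers of the number field.

In the starting file `MP_ede373_nt.ArbitraryCurves` the points are on curves (`n = 1`), or on products of curves, one for
each coordinate, with different functions for each of the coordinates. Here the `τ_i` may depend on all variables; for
instance `τ_1, …, τ_p` can be any pairwise inequivalent algebraic functions of `n` variables, such as linear forms.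

The proof uses the theorem of the starting files for curves in the form of an Ax-Schanuel theorem
(`Pool.Agent.Y776.AxJ.exists_loc`) and the general theorem `Pool.Agent.Y890.MV.nfM` for functions of several variables which
are locally algebraically independent. New is the passage between them: functions which are algebraically independent over
the rational functions of `n` variables remain independent on generic lines
(`Pool.Agent.W5h46.GV.gen_line`), and functions which are independent on one line (or polynomial curve) are independent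
over the rational functions of all variables (`Pool.Agent.W5h46.GV.locIndM_of_curve`).
-/

set_option autoImplicit false

open NumberField
open Pool.Agent

namespace Pool.Agent.Results.MP_ede373_nt.AnalyticVarieties

/-- The lattice `ℤ + ℤ τ`. -/
noncomputable def lattice (τ : ℂ) (h : 0 < τ.im) : PeriodPair where
  ω₁ := 1
  ω₂ := τ
  indep := (Y685.LL ⟨τ, h⟩).indep

/-- The modular invariant `j = 1728 g₂³ / (g₂³ - 27 g₃²)` on the upper half-plane. -/
noncomputable def j (τ : ℂ) : ℂ :=
  if h : 0 < τ.im then 1728 * (lattice τ h).g₂ ^ 3 / ((lattice τ h).g₂ ^ 3 - 27 * (lattice τ h).g₃ ^ 2) else 0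

/-- The names of the functions. -/
inductive Name (p s : ℕ) : Type
  | tau : Fin p → Name p s
  | j : Fin p → Name p s
  | dj : Fin p → Name p s
  | ddj : Fin p → Name p s
  | w : Fin s → Name p s
  | expw : Fin s → Name p s

/-- The values `τ_i(x)`, `j(τ_i(x))`, `j'(τ_i(x))`, `j''(τ_i(x))` (complex derivatives of `j`), `w_k(x)` and
`exp(w_k(x))`. -/
noncomputable def value {n p s : ℕ} (τ : Fin p → (Fin n → ℂ) → ℂ) (w : Fin s → (Fin n → ℂ) → ℂ) (x : Fin n → ℂ) :
    Name p s → ℂ
  | Name.tau i => τ i x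
  | Name.j i => j (τ i x)
  | Name.dj i => deriv j (τ i x)
  | Name.ddj i => deriv (deriv j) (τ i x)
  | Name.w k => w k x
  | Name.expw k => Complex.exp (w k x)

/-- An analytic variety in `ℍ^p × ℂ^s`, parametrised by a domain of `ℂ^n`. -/
structure Variety {n : ℕ} (U : Set (Fin n → ℂ)) {p s : ℕ} (τ : Fin p → (Fin n → ℂ) → ℂ)
    (w : Fin s → (Fin n → ℂ) → ℂ) : Prop where
  pos : 0 < p
  isOpen : IsOpen U
  isPreconnected : IsPreconnected U
  nonempty : U.Nonempty
  analytic : ∀ i, AnalyticOnNhd ℂ (τ i) U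
  im_pos : ∀ i, ∀ x ∈ U, 0 < (τ i x).im
  nonconstant : ∀ i c, ∃ x ∈ U, τ i x ≠ c
  /-- two of the functions `j(τ_i)` are algebraically independent over `ℂ(x_1, …, x_n)` -/
  independent : ∀ i k, i ≠ k → ∀ P : MvPolynomial (Fin n ⊕ Fin 2) ℂ, P ≠ 0 →
    ∃ x ∈ U, MvPolynomial.eval (Sum.elim x ![j (τ i x), j (τ k x)]) P ≠ 0
  analytic_w : ∀ k, AnalyticOnNhd ℂ (w k) U
  /-- no nontrivial combination with integral coefficients of the `w_k` is constant -/
  linear : ∀ (m : Fin s → ℤ) (c : ℂ), (∀ x ∈ U, ∑ k, (m k : ℂ) * w k x = c) → m = 0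

/-- The element `x` of `F` is a quotient of integers all of whose conjugates have absolute value at most `T`. -/
def HeightLe (F : Type) [Field F] [NumberField F] (T : ℝ) (x : F) : Prop :=
  ∃ a b : 𝓞 F, b ≠ 0 ∧ (∀ φ : F →+* ℂ, ‖φ a‖ ≤ T ∧ ‖φ b‖ ≤ T) ∧ x = a / b

/-- The polynomials of degree at most `d` in each variable, all of whose coefficients are of the form `∑ ξ_i ι(c_i)`, where
the `c_i` are integers of the number field `F` all of whose conjugates have absolute value at most `M`. -/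
def Admissible {σ : Type} {g : ℕ} (F : Type) [Field F] [NumberField F] (ι : F →+* ℂ) (ξ : Fin g → ℂ) (d : ℕ) (M : ℝ)
    (P : MvPolynomial σ ℂ) : Prop :=
  (∀ y, P.degreeOf y ≤ d) ∧
    ∀ s, ∃ c : Fin g → 𝓞 F, (∀ i (φ : F →+* ℂ), ‖φ (c i)‖ ≤ M) ∧ P.coeff s = ∑ i, ξ i * ι (c i)

/-- The complex numbers `v` are good: every admissible polynomial takes at them a value which is at least `δ` times each of
its coefficients. -/
def Good {σ : Type} {g : ℕ} (F : Type) [Field F] [NumberField F] (ι : F →+* ℂ) (ξ : Fin g → ℂ) (d : ℕ)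
    (M δ : ℝ) (v : σ → ℂ) : Prop :=
  ∀ P : MvPolynomial σ ℂ, Admissible F ι ξ d M P → ∀ s, δ * ‖P.coeff s‖ ≤ ‖MvPolynomial.aeval v P‖

/-- The points `x` of `K` with coordinates in `F` of height at most `T` for which the values of the functions with the
names `e_1, …, e_r` are not good. -/
def Bad {n p s g r : ℕ} (τ : Fin p → (Fin n → ℂ) → ℂ) (w : Fin s → (Fin n → ℂ) → ℂ) (e : Fin r → Name p s)
    (K : Set (Fin n → ℂ)) (F : Type) [Field F] [NumberField F] (ι : F →+* ℂ) (ξ : Fin g → ℂ) (d : ℕ)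
    (T A B : ℝ) : Set (Fin n → F) :=
  {x | (∀ j, HeightLe F T (x j)) ∧ (fun j => ι (x j)) ∈ K ∧
    ¬ Good F ι ξ d (T ^ A) (T ^ (-B)) (fun k => value τ w (fun j => ι (x j)) (e k))}

theorem j_eq {τ : ℂ} (h : 0 < τ.im) : j τ = Y776.jf τ := by
  have h1 : Y685.LC τ = lattice τ h := by
    rw [Y685.LC, UpperHalfPlane.ofComplex_apply_of_im_pos h]
    rfl
  rw [j, dif_pos h, Y776.jf, h1]

theorem j_ev {τ : ℂ} (h : 0 < τ.im) : j =ᶠ[nhds τ] Y776.jf := by
  filter_upwards [Y776.AxJ.isOpen_H.mem_nhds h] with σ hσ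
  exact j_eq hσ

theorem dj_eq {τ : ℂ} (h : 0 < τ.im) : deriv j τ = deriv Y776.jf τ := (j_ev h).deriv_eq

theorem dj_ev {τ : ℂ} (h : 0 < τ.im) : deriv j =ᶠ[nhds τ] deriv Y776.jf := by
  filter_upwards [Y776.AxJ.isOpen_H.mem_nhds h] with σ hσ
  exact dj_eq hσ

theorem ddj_eq {τ : ℂ} (h : 0 < τ.im) : deriv (deriv j) τ = deriv (deriv Y776.jf) τ := (dj_ev h).deriv_eq

theorem jfam {n : ℕ} {U : Set (Fin n → ℂ)} {p s : ℕ} {τ : Fin p → (Fin n → ℂ) → ℂ} {w : Fin s → (Fin n → ℂ) → ℂ}
    (h : Variety U τ w) : W5h46.GV.JF U τ w where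
  pos := h.pos
  op := h.isOpen
  conn := h.isPreconnected
  ne := h.nonempty
  ta := h.analytic
  im := h.im_pos
  nc := h.nonconstant
  ji := by
    intro i k hik P hP
    by_contra hne
    obtain ⟨x, hx, hx0⟩ := h.independent i k hik P hne
    apply hx0
    rw [← hP x hx]
    congr 2
    funext m
    rcases m with m | m
    · rfl
    · fin_cases m
      · exact j_eq (h.im_pos i x hx)
      · exact j_eq (h.im_pos k x hx)
  wa := h.analytic_w
  wi := h.linear

/-- the name of a function -/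
def nm {p s : ℕ} : Y776.AxJ.Nj p s → Name p s := fun o => match o with
  | Sum.inl (i, 0) => Name.tau i
  | Sum.inl (i, 1) => Name.j i
  | Sum.inl (i, 2) => Name.dj i
  | Sum.inl (i, 3) => Name.ddj i
  | Sum.inr (Sum.inl k) => Name.w k
  | Sum.inr (Sum.inr k) => Name.expw k

/-- the function with a given name -/
def mn {p s : ℕ} : Name p s → Y776.AxJ.Nj p s := fun o => match o with
  | Name.tau i => Sum.inl (i, 0)
  | Name.j i => Sum.inl (i, 1)
  | Name.dj i => Sum.inl (i, 2)
  | Name.ddj i => Sum.inl (i, 3)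
  | Name.w k => Sum.inr (Sum.inl k)
  | Name.expw k => Sum.inr (Sum.inr k)

theorem nm_inj {p s : ℕ} : Function.Injective (nm (p := p) (s := s)) := by
  have h : Function.LeftInverse (mn (p := p) (s := s)) nm := by
    rintro (⟨i, m⟩ | k | k)
    · fin_cases m <;> rfl
    · rfl
    · rfl
  exact h.injective

theorem value_eq {n : ℕ} {U : Set (Fin n → ℂ)} {p s : ℕ} {τ : Fin p → (Fin n → ℂ) → ℂ}
    {w : Fin s → (Fin n → ℂ) → ℂ} (h : Variety U τ w) {x : Fin n → ℂ} (hx : x ∈ U) (o : Y776.AxJ.Nj p s) :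
    value τ w x (nm o) = W5h46.GV.vj τ w o x := by
  rcases o with ⟨i, m⟩ | k | k
  · fin_cases m
    · rfl
    · exact j_eq (h.im_pos i x hx)
    · exact dj_eq (h.im_pos i x hx)
    · exact ddj_eq (h.im_pos i x hx)
  · rfl
  · rfl

/-- For every analytic variety in `ℍ^p × ℂ^s`, parametrised by `n` variables, there are `3 p + s` different functions
among its `4 p + 2 s` functions such that for all compact subsets `K` of the domain and all `m`, `g`, `d`, `A` and `ε > 0`
there are `D`, `B`, `C`, `T₀` such that for every number field `F` of degree at most `m`, every embedding `ι` of `F`, all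
complex numbers `ξ_1, …, ξ_g` and all `T ≥ T₀`: the points of `F^n` of height at most `T` in `K` at which the values of these
`3 p + s` functions are not good lie on at most `C T^ε` hypersurfaces of degree at most `D`, and for every finite set `S` of
elements of `F` at most `C T^ε |S|^(n-1)` of them have all coordinates in `S`. -/
theorem result {n p s : ℕ} (U : Set (Fin n → ℂ)) (τ : Fin p → (Fin n → ℂ) → ℂ) (w : Fin s → (Fin n → ℂ) → ℂ)
    (hU : Variety U τ w) :
    ∃ e : Fin (3 * p + s) → Name p s, Function.Injective e ∧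
      ∀ K : Set (Fin n → ℂ), IsCompact K → K ⊆ U → ∀ (m g d : ℕ) (A ε : ℝ), 0 < ε →
        ∃ (D : ℕ) (B C T₀ : ℝ), ∀ (F : Type) [Field F] [NumberField F], Module.finrank ℚ F ≤ m →
          ∀ (ι : F →+* ℂ) (ξ : Fin g → ℂ) (T : ℝ), T₀ ≤ T →
            (∃ Φ : Finset (MvPolynomial (Fin n) ℂ), (Φ.card : ℝ) ≤ C * T ^ ε ∧ (∀ P ∈ Φ, P ≠ 0 ∧ P.totalDegree ≤ D) ∧
              ∀ x ∈ Bad τ w e K F ι ξ d T A B, ∃ P ∈ Φ, MvPolynomial.eval (fun j => ι (x j)) P = 0) ∧
            ∀ S : Finset F, ({x | x ∈ Bad τ w e K F ι ξ d T A B ∧ ∀ j, x j ∈ S}.ncard : ℝ) ≤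
              C * T ^ ε * (S.card : ℝ) ^ (n - 1) := by
  classical
  have hn : 0 < n := by
    by_contra h0
    obtain rfl : n = 0 := by omega
    obtain ⟨x₀, _⟩ := hU.nonempty
    obtain ⟨x, _, hne⟩ := hU.nonconstant ⟨0, hU.pos⟩ (τ ⟨0, hU.pos⟩ x₀)
    exact hne (congrArg _ (Subsingleton.elim _ _))
  have : Nonempty (Fin n) := ⟨⟨0, hn⟩⟩
  obtain ⟨e, he, hloc⟩ := W5h46.GV.exists_locM (jfam hU)
  refine ⟨fun k => nm (e k), nm_inj.comp he, ?_⟩
  intro K hK hKU m g d A ε hε
  obtain ⟨D, B, C, T₀, hC, hT₀, hcov⟩ := Y890.MV.nfM Y890.MV.stmZ Y890.MV.stmClose Y890.MV.stmCharts m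
    (fun k => W5h46.GV.vj τ w (e k)) K hK (fun k t ht => W5h46.GV.vj_an (jfam hU) (e k) t (hKU ht))
    (fun t ht => hloc t (hKU ht)) (Fin g) d A ε hε
  refine ⟨D, B, C * (D + 1), T₀, fun F _ _ hF ι ξ T hT => ?_⟩
  have hT0 : 0 < T := by linarith
  have hTe : 0 < T ^ ε := Real.rpow_pos_of_pos hT0 ε
  have hCT : 0 ≤ C * T ^ ε := mul_nonneg hC hTe.le
  have hD1 : (1 : ℝ) ≤ D + 1 := by
    have : (0 : ℝ) ≤ D := Nat.cast_nonneg _
    linarith
  have hcov' : Y124.Cov D ⌊C * T ^ ε⌋₊ ((fun (x : Fin n → F) j => ι (x j)) ''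
      Bad τ w (fun k => nm (e k)) K F ι ξ d T A B) := by
    refine (hcov F hF ι ξ T hT).mono le_rfl le_rfl ?_
    rintro _ ⟨x, ⟨hx1, hx2, hx3⟩, rfl⟩
    have hht : ∀ j, Y120.HtLe F T (x j) := by
      intro j
      obtain ⟨a, b, hb, h1, h2⟩ := hx1 j
      refine ⟨a, b, hb, ?_, ?_, h2⟩
      · rw [house, pi_norm_le_iff_of_nonneg hT0.le]
        exact fun φ => (h1 φ).1
      · rw [house, pi_norm_le_iff_of_nonneg hT0.le]
        exact fun φ => (h1 φ).2
    refine ⟨hx2, x, hht, rfl, ?_⟩
    unfold Good at hx3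
    push Not at hx3
    obtain ⟨P, ⟨hP1, hP2⟩, s₀, hs₀⟩ := hx3
    have hne : P.coeff s₀ ≠ 0 := by
      intro h0
      rw [h0, norm_zero, mul_zero] at hs₀
      exact absurd hs₀ (not_lt.2 (norm_nonneg _))
    refine Y890.MV.relK_of_poly1 F ι ξ (fun k => W5h46.GV.vj τ w (e k) fun j => ι (x j)) (T ^ A) (T ^ (-B)) P hP1 hP2
      s₀ hne ?_
    simp only [value_eq hU (hKU hx2)] at hs₀
    exact hs₀.le
  constructor
  · obtain ⟨Φ, h1, h2, h3⟩ := hcov'
    refine ⟨Φ, ?_, h2, fun x hx => h3 _ ⟨x, hx, rfl⟩⟩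
    have h4 : (Φ.card : ℝ) ≤ ⌊C * T ^ ε⌋₊ := by exact_mod_cast h1
    refine (h4.trans (Nat.floor_le hCT)).trans ?_
    nlinarith
  · intro S
    have h1 : Y124.Cov D ⌊C * T ^ ε⌋₊ ((fun (x : Fin n → F) j => ι (x j)) ''
        {x | x ∈ Bad τ w (fun k => nm (e k)) K F ι ξ d T A B ∧ ∀ j, x j ∈ S}) :=
      hcov'.mono le_rfl le_rfl (Set.image_mono fun x hx => hx.1)
    obtain ⟨_, h2⟩ := Y890.MV.cov_count ι (S : Set F) S.finite_toSet _ (fun x hx j => hx.2 j) h1
    rw [Fintype.card_fin, Set.ncard_coe_finset] at h2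
    have h3 : ({x | x ∈ Bad τ w (fun k => nm (e k)) K F ι ξ d T A B ∧ ∀ j, x j ∈ S}.ncard : ℝ) ≤
        (⌊C * T ^ ε⌋₊ : ℝ) * (D * (S.card : ℝ) ^ (n - 1)) := by exact_mod_cast h2
    refine h3.trans ?_
    have h4 : (0 : ℝ) ≤ (S.card : ℝ) ^ (n - 1) := by positivity
    have h5 : (D : ℝ) * (S.card : ℝ) ^ (n - 1) ≤ (D + 1) * (S.card : ℝ) ^ (n - 1) :=
      mul_le_mul_of_nonneg_right (by linarith) h4
    calc (⌊C * T ^ ε⌋₊ : ℝ) * (D * (S.card : ℝ) ^ (n - 1)) ≤ C * T ^ ε * ((D + 1) * (S.card : ℝ) ^ (n - 1)) :=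
          mul_le_mul (Nat.floor_le hCT) h5 (by positivity) hCT
      _ = _ := by ring

end Pool.Agent.Results.MP_ede373_nt.AnalyticVarieties
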