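import Pool.Agent.W5h28.NE.Gen
import Pool.Agent.Results.MP_ede373_nt.ArbitraryCurves
import Pool.Agent.Results.MP_ede373_nt.AlgebraicPointsOrNomes

/-!
# The modular Schanuel conjecture with derivatives at all good approximations of a given point

Let `τ_1, …, τ_p` (`p ≥ 1`) be nonconstant analytic functions on a connected open set `U` with values in the upper
half-plane, `j(τ_i)` and `j(τ_k)` algebraically independent over `ℂ` for `i ≠ k`. The starting files
`ArbitraryCurves` and `AlgebraicPointsOrNomes` bound the number of the points `x` of height at most `T` of a number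
field at which the numbers `τ_i(x)`, `j(τ_i(x))`, `j'(τ_i(x))`, `j''(τ_i(x))` do not satisfy the modular Schanuel
conjecture with derivatives (in an approximate sense). They do not say anything about a given point, nor about the
points near a given one.

Here we show: outside a set of Hausdorff dimension zero, for a point `z` of `U` *every* algebraic number `x` near `z`
is good. More precisely, there is one exceptional set `E` of dimension zero such that for all `z` not in `E`, all
number fields `F`, all `λ > 0`, all degrees `d` and all exponents `A` the numbers at all points `x` of `F` of height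
at most `T`, `T` large, with `|z - x| ≤ C T^(-λ [F : ℚ])` have no relation, not even an approximate one, of degree
`d` and of height `T^A`; the coefficients may also be combinations of numbers of a countable set. For `n` different
curves the same is true for `n`-tuples `z` outside a set of dimension `2 (n - 1) / λ`; in particular, outside one set
of codimension two (`λ = 1`), for all tuples `x` which approximate `z` as well as Dirichlet's theorem
predicts, for all number fields together.
-/

set_option autoImplicit false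

open NumberField
open Pool.Agent

namespace Pool.Agent.Results.MP_ede373_nt.NearEveryPoint

/-- The elements of the number field `F` which are quotients of two integers of `F` all of whose conjugates have
absolute value at most `T`. -/
def Points (F : Type) [Field F] [NumberField F] (T : ℝ) : Set F :=
  {x | ∃ a b : 𝓞 F, b ≠ 0 ∧ (∀ φ : F →+* ℂ, ‖φ a‖ ≤ T ∧ ‖φ b‖ ≤ T) ∧ x = a / b}

/-- There is a polynomial `P` of degree at most `d` in each variable, with coefficients of the form `∑ c_i ι(a_i)`,
where the `a_i` are integers of `F` all of whose conjugates have absolute value at most `T ^ A`, such that the value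
of `P` at the numbers `v j (ι (x j)) i` is at most `T ^ (-B)` times the absolute value of some nonzero coefficient of
`P`. -/
def Related {n : ℕ} {J : Fin n → Type} (v : ∀ j, ℂ → J j → ℂ) (F : Type) [Field F] [NumberField F] (ι : F →+* ℂ)
    (d : ℕ) {g : ℕ} (c : Fin g → ℂ) (A B T : ℝ) (x : Fin n → F) : Prop :=
  ∃ P : MvPolynomial (Σ j, J j) ℂ, (∀ y, P.degreeOf y ≤ d) ∧
    (∀ s, ∃ a : Fin g → 𝓞 F, (∀ i (φ : F →+* ℂ), ‖φ (a i)‖ ≤ T ^ A) ∧ P.coeff s = ∑ i, c i * ι (a i)) ∧
    ∃ s₀, P.coeff s₀ ≠ 0 ∧
      ‖MvPolynomial.aeval (fun y : Σ j, J j => v y.1 (ι (x y.1)) y.2) P‖ ≤ T ^ (-B) * ‖P.coeff s₀‖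

/-- For all number fields `F` in `ℂ`, all `d`, all `c_1, …, c_g` in `k` and all `A` there is `B` such that for all
`C` and all large `T`: the tuples `x` of points of `F` of height at most `T` with
`|z_j - x_j| ≤ C T ^ (-λ [F : ℚ])` for all `j` are not related. -/
def Independent {n : ℕ} {J : Fin n → Type} (v : ∀ j, ℂ → J j → ℂ) (k : Set ℂ) (lam : ℝ) (z : Fin n → ℂ) : Prop :=
  ∀ (F : IntermediateField ℚ ℂ) [NumberField F] (d g : ℕ) (c : Fin g → ℂ), (∀ i, c i ∈ k) → ∀ A : ℝ, ∃ B : ℝ,
    ∀ C : ℝ, ∃ T₀ : ℝ, ∀ T : ℝ, T₀ ≤ T → ∀ x : Fin n → F,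
      (∀ j, x j ∈ Points F T ∧ ‖z j - (x j : ℂ)‖ ≤ C * T ^ (-(lam * Module.finrank ℚ F))) →
        ¬ Related v F (algebraMap F ℂ) d c A B T x

/-- For every countable set `k` of complex numbers and every `λ > 0` the tuples `z` with `z_j` in `U_j` are
independent in the sense of `Independent`, with the exception of a set of Hausdorff dimension at most
`2 (n - 1) / λ`; for `n = 1` with the exception of a set of dimension zero which does not depend on `λ`. -/
def Metric {n : ℕ} {J : Fin n → Type} (v : ∀ j, ℂ → J j → ℂ) (U : Fin n → Set ℂ) : Prop :=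
  ∀ k : Set ℂ, k.Countable →
    (∀ lam : ℝ, 0 < lam → ∃ E : Set (Fin n → ℂ), dimH E ≤ ENNReal.ofReal (2 * ((n : ℝ) - 1) / lam) ∧
      ∀ z : Fin n → ℂ, (∀ j, z j ∈ U j) → z ∉ E → Independent v k lam z) ∧
    (n = 1 → ∃ E : Set (Fin n → ℂ), dimH E = 0 ∧
      ∀ z : Fin n → ℂ, (∀ j, z j ∈ U j) → z ∉ E → ∀ lam : ℝ, 0 < lam → Independent v k lam z)

theorem metric {n : ℕ} (hn : 1 ≤ n) {J : Fin n → Type} (v : ∀ j, ℂ → J j → ℂ) (U : Fin n → Set ℂ)
    (hU : ∀ j, IsOpen (U j)) (hc : W5h28.NE.Count v U) : Metric v U := by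
  intro k hk
  exact ⟨fun lam hl => W5h28.NE.near_main hn v U hU hc k hk lam hl,
    fun h1 => W5h28.NE.near_one h1 v U hU hc k hk⟩

/-- (1) For `n ≥ 1` arbitrary analytic curves `(τ_j, w_j)` in `ℍ^(p_j) × ℂ^(s_j)` (`p_j ≥ 1`; the `τ_ji` not
constant, their `j`-invariants pairwise independent, no nontrivial integral combination of the `w_ji` constant) there
are `3 p_j + s_j` functions among `τ_ji`, `j(τ_ji)`, `j'(τ_ji)`, `j''(τ_ji)`, `w_ji`, `exp(w_ji)` for which `Metric`
is true. (2) If `p_j` of the `5 p_j` functions `τ_ji`, `j(τ_ji)`, `j'(τ_ji)`, `j''(τ_ji)`, `exp(2 π i τ_ji)` are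
algebraic and no nontrivial integral combination of the `τ_ji` is constant, it is true for *all* other `4 p_j`
functions. -/
theorem result :
    (∀ (n : ℕ) (_ : 1 ≤ n) (p s : Fin n → ℕ) (U : Fin n → Set ℂ) (τ : ∀ j, Fin (p j) → ℂ → ℂ)
      (w : ∀ j, Fin (s j) → ℂ → ℂ), (∀ j, ArbitraryCurves.Curve (U j) (τ j) (w j)) →
      ∃ e : ∀ j, Fin (3 * p j + s j) → ArbitraryCurves.Name (p j) (s j), (∀ j, Function.Injective (e j)) ∧
        Metric (fun j z i => ArbitraryCurves.value (τ j) (w j) z (e j i)) U) ∧
    (∀ (n : ℕ) (_ : 1 ≤ n) (p : Fin n → ℕ) (U : Fin n → Set ℂ) (τ : ∀ j, Fin (p j) → ℂ → ℂ)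
      (S : ∀ j, Finset (AlgebraicPointsOrNomes.Name (p j))),
      (∀ j, AlgebraicPointsOrNomes.Curve (U j) (τ j) (S j)) →
      Metric (fun j z (i : {y : AlgebraicPointsOrNomes.Name (p j) // y ∉ S j}) =>
        AlgebraicPointsOrNomes.value (τ j) z i.1) U) := by
  refine ⟨?_, ?_⟩
  · intro n hn p s U τ w hU
    obtain ⟨e, he, H⟩ := ArbitraryCurves.result U τ w hU
    refine ⟨e, he, metric hn _ U (fun j => (hU j).isOpen) ?_⟩
    intro K hK hKU m g d A ε hε
    obtain ⟨B, C, T₀, h⟩ := H K hK hKU m g d A ε hε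
    exact ⟨B, C, T₀, fun F _ _ hm ι c T hT => h F hm ι c T hT⟩
  · intro n hn p U τ S hU
    refine metric hn _ U (fun j => (hU j).isOpen) ?_
    intro K hK hKU m g d A ε hε
    obtain ⟨B, C, T₀, h⟩ := AlgebraicPointsOrNomes.result U τ S hU K hK hKU m g d A ε hε
    exact ⟨B, C, T₀, fun F _ _ hm ι c T hT => h F hm ι c T hT⟩

end Pool.Agent.Results.MP_ede373_nt.NearEveryPoint
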