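import Pool.Agent.W5h27.ES.Wn

/-!
# The modular Schanuel conjecture with derivatives: windows of algebraic points near an ordinary point of a rational family

Let `j` be the modular invariant and let `R` be any nonconstant rational function over `ℚ` with `R(0) ≠ 0, 1728, ∞`, for
instance `R(x) = j(E_x)` for a nonisotrivial family of elliptic curves `E_x` over `ℚ(x)` which has at `x = 0` a good fibre
without complex multiplication by `ℤ[i]`, `ℤ[ρ]`. For algebraic numbers `α_i` we consider the points `z_i` of the upper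
half-plane with `j(z_i) = R(1/α_i)`. If the `z_i` are not special and pairwise not equivalent under `GL_2(ℚ)`, the
conjecture predicts that the `3 k` numbers `z_i`, `j'(z_i)`, `j''(z_i)` are algebraically independent.

We prove that there are numbers `G₀` and `C₀`, which depend only on `R`, such that for all `G ≥ G₀` and all `q`, `k`, `m`,
`d`, `δ`, `A` there is `E` with the following property. Let `ξ` be **any algebraic number** of degree at most `m` (not
necessarily an integer) which is the zero of a polynomial with integral coefficients of absolute value at most `|ξ|^A`, and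
let `(H + 2)^E ≤ |ξ|`. Then for all complex numbers `w_1, …, w_q` there is a set `S` of **at most `q + C₀`** of the numbers
`1, …, H` such that for **all** distinct `u_1, …, u_k` in `{1, …, H}` outside `S`, **all** points `z_i` with
`j(z_i) = R(1/(ξ - G u_i))` and **all** logarithms `ℓ_i` of `ξ - G u_i` every relation of degree at most `δ` between the `4 k`
numbers `z_i`, `j'(z_i)`, `j''(z_i)`, `ℓ_i`, with coefficients which are polynomials in `w_1, …, w_q` over a number field of
degree at most `d` (any number field, it may contain `ξ`), is trivial: the polynomial is zero after the substitution of the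
numbers `w_1, …, w_q`. There is no bound for the heights of the coefficients.

`MP_ede373_nt.AlgebraicWindows` is about windows of the invariants `j(z_i) = ξ - G u_i` themselves, which are large
(`R(x) = 1/x`, the cusp). Here the invariants `j(z_i)` are near the number `R(0)`. `MP_ede373_nt.RationalFamilies` treats the
same families and says that almost all tuples of algebraic integers in a large box are not exceptional; here the points
belong to one short window around an arbitrary algebraic number, and all tuples of the window are treated, with the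
exception of a bounded number of its points.

Proof. See `Pool.Agent.W5h27.ES`: the fundamental matrix `Ψ(x)` of the differential equation of `j` along `j = R(x)` with
`Ψ(0) = 1` consists of G-functions which satisfy Galochkin's condition, all algebraic relations between its entries come
from the determinant, and all `z` with `j(z) = R(x)` are given by `± Ψ(x) C` where the entries of `C` belong to a fixed space
of finite dimension over `ℚ`. The theorem of `Pool.Agent.Y916.Af` (Siegel's method at `1/ξ` for the shifted G-functions)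
is applied with a basis of this space as constants.
-/

set_option autoImplicit false

namespace Pool.Agent.Results.MP_ede373_nt.OrdinaryWindows

/-- the normalised Eisenstein series of weight `4` -/
noncomputable def E4 (τ : ℂ) : ℂ :=
  1 + 240 * ∑' m : ℕ, ((ArithmeticFunction.sigma 3 (m + 1) : ℕ) : ℂ) *
    Complex.exp (2 * (Real.pi : ℂ) * Complex.I * ((m : ℂ) + 1) * τ)

/-- the normalised Eisenstein series of weight `6` -/
noncomputable def E6 (τ : ℂ) : ℂ :=
  1 - 504 * ∑' m : ℕ, ((ArithmeticFunction.sigma 5 (m + 1) : ℕ) : ℂ) *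
    Complex.exp (2 * (Real.pi : ℂ) * Complex.I * ((m : ℂ) + 1) * τ)

/-- the modular invariant `j = q⁻¹ + 744 + 196884 q + ⋯` -/
noncomputable def J (τ : ℂ) : ℂ := 1728 * E4 τ ^ 3 / (E4 τ ^ 3 - E6 τ ^ 2)

/-- the numbers `z`, `j'(z)`, `j''(z)`, `ℓ` -/
noncomputable def numbers (z ℓ : ℂ) : Fin 4 → ℂ := ![z, deriv J z, deriv (deriv J) z, ℓ]

/-- `ξ` is a zero of a polynomial of degree at most `m` with integral coefficients of absolute value at most `|ξ|^A`. -/
def Height (m A : ℕ) (ξ : ℂ) : Prop :=
  ∃ p : Polynomial ℤ, p ≠ 0 ∧ p.natDegree ≤ m ∧ (∀ j, |(p.coeff j : ℝ)| ≤ ‖ξ‖ ^ A) ∧ Polynomial.aeval ξ p = 0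

/-- The value at `x` of the rational function `f / g`. -/
noncomputable def ratio (f g : Polynomial ℤ) (x : ℂ) : ℂ := Polynomial.aeval x f / Polynomial.aeval x g

/-- The numbers `w_1, …, w_q` and `numbers (z_1) (ℓ_1), …, numbers (z_k) (ℓ_k)`. -/
noncomputable def values {q k : ℕ} (w : Fin q → ℂ) (z ℓ : Fin k → ℂ) : Fin q ⊕ Fin k × Fin 4 → ℂ :=
  Sum.elim w fun v => numbers (z v.1) (ℓ v.1) v.2

/-- The numbers `w_1, …, w_q` and `4 k` variables. -/
noncomputable def generic {q k : ℕ} (w : Fin q → ℂ) : Fin q ⊕ Fin k × Fin 4 → MvPolynomial (Fin k × Fin 4) ℂ :=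
  Sum.elim (fun o => MvPolynomial.C (w o)) MvPolynomial.X

lemma gen_eval {q k : ℕ} (K : IntermediateField ℚ ℂ) (w : Fin q → ℂ) (u : Fin k × Fin 4 → ℂ)
    (P : MvPolynomial (Fin q ⊕ Fin k × Fin 4) K) :
    MvPolynomial.eval u (MvPolynomial.aeval (generic (k := k) w) P) = MvPolynomial.aeval (Sum.elim w u) P := by
  have h2 : ((MvPolynomial.aeval u : MvPolynomial (Fin k × Fin 4) ℂ →ₐ[ℂ] ℂ).restrictScalars K).comp
      (MvPolynomial.aeval (generic (k := k) w) : MvPolynomial (Fin q ⊕ Fin k × Fin 4) K →ₐ[K] MvPolynomial (Fin k × Fin 4) ℂ)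
      = MvPolynomial.aeval (Sum.elim w u) := by
    apply MvPolynomial.algHom_ext
    intro v
    rw [AlgHom.comp_apply, MvPolynomial.aeval_X, MvPolynomial.aeval_X, AlgHom.restrictScalars_apply]
    rcases v with o | v
    · rw [generic, Sum.elim_inl, Sum.elim_inl, MvPolynomial.aeval_C]
      rfl
    · rw [generic, Sum.elim_inr, Sum.elim_inr, MvPolynomial.aeval_X]
  rw [← h2, AlgHom.comp_apply, AlgHom.restrictScalars_apply]
  rfl

lemma J_eq : J = Pool.Agent.TH21.MS.jj := by
  have h4 : E4 = Pool.Agent.TH21.MS.E4 := funext Pool.Agent.Y120.J.E4_same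
  have h6 : E6 = Pool.Agent.TH21.MS.E6 := funext Pool.Agent.Y120.J.E6_same
  funext τ
  unfold J Pool.Agent.TH21.MS.jj
  rw [h4, h6]

lemma values_eq {q k : ℕ} (w : Fin q → ℂ) (z ℓ : Fin k → ℂ) :
    (Sum.elim w fun v : Fin k × Fin 4 => Pool.Agent.W5h27.ES.nu (z v.1) (ℓ v.1) v.2) = values w z ℓ := by
  unfold values numbers Pool.Agent.W5h27.ES.nu
  rw [J_eq]

/-- Let `f / g` be a nonconstant rational function over `ℚ` whose value at `0` is not `∞`, `0` or `1728`. There are `G₀` and
`C₀` such that for all `G ≥ G₀` and all `q`, `k`, `m`, `d`, `δ`, `A` there is `E` such that for all `H`, all algebraic `ξ` with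
`Height m A ξ` and `(H + 2)^E ≤ |ξ|` and all `w_1, …, w_q` there is a set `S` of at most `q + C₀` numbers such that for all
distinct `u_1, …, u_k` in `{1, …, H}` outside `S`, all `z_i` with `j(z_i) = f(1/α_i) / g(1/α_i)`, `α_i = ξ - G u_i`, and all `ℓ_i`
with `exp ℓ_i = α_i` every polynomial `P` of degree at most `δ` over a number field `K` of degree at most `d` which vanishes
at `w_1, …, w_q` and the `4 k` numbers `z_i`, `j'(z_i)`, `j''(z_i)`, `ℓ_i` is zero after the substitution of `w_1, …, w_q`. -/
theorem result (f g : Polynomial ℤ) (hg : g.eval 0 ≠ 0) (hf : f.eval 0 ≠ 0) (hfg : f.eval 0 ≠ 1728 * g.eval 0)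
    (hR : Polynomial.C (g.eval 0) * f ≠ Polynomial.C (f.eval 0) * g) :
    ∃ G₀ C₀ : ℕ, 1 ≤ G₀ ∧ ∀ G : ℕ, G₀ ≤ G → ∀ q k m d δ A : ℕ, ∃ E : ℕ, ∀ (H : ℕ) (ξ : ℂ),
    ((H : ℝ) + 2) ^ E ≤ ‖ξ‖ → Height m A ξ → ∀ w : Fin q → ℂ, ∃ S : Finset ℕ, S.card ≤ q + C₀ ∧
    ∀ u : Fin k → ℕ, Function.Injective u → (∀ i, 1 ≤ u i ∧ u i ≤ H ∧ u i ∉ S) →
    ∀ z ℓ : Fin k → ℂ, (∀ i, 0 < (z i).im ∧ J (z i) = ratio f g (1 / (ξ - ((G * u i : ℕ) : ℂ))) ∧
      Complex.exp (ℓ i) = ξ - ((G * u i : ℕ) : ℂ)) →
    ∀ K : IntermediateField ℚ ℂ, FiniteDimensional ℚ K → Module.finrank ℚ K ≤ d →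
    ∀ P : MvPolynomial (Fin q ⊕ Fin k × Fin 4) K, P.totalDegree ≤ δ →
      MvPolynomial.aeval (values w z ℓ) P = 0 → MvPolynomial.aeval (generic (k := k) w) P = 0 := by
  rw [← Polynomial.coeff_zero_eq_eval_zero] at hg hf
  rw [← Polynomial.coeff_zero_eq_eval_zero, ← Polynomial.coeff_zero_eq_eval_zero] at hfg hR
  obtain ⟨G₀, C₀, hG₀, h⟩ := Pool.Agent.W5h27.ES.winR hf hfg hg hR
  refine ⟨G₀, C₀, hG₀, fun G hG q k m d δ A => ?_⟩
  obtain ⟨E, hE⟩ := h G hG q k m d δ A
  refine ⟨E, fun H ξ hξ hHt w => ?_⟩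
  obtain ⟨S, hS, hS'⟩ := hE H ξ hξ hHt w
  refine ⟨S, hS, fun u hu hub z ℓ hz K hK hKd P hP hP0 => ?_⟩
  rw [← values_eq] at hP0
  have h1 := hS' u hu hub (fun i => ⟨z i, (hz i).1⟩) ℓ (fun i => by
    have h1 := (hz i).2.1
    rw [J_eq] at h1
    exact h1) (fun i => (hz i).2.2) K hK hKd P hP hP0
  refine MvPolynomial.funext fun y => ?_
  rw [map_zero, gen_eval]
  exact h1 y

end Pool.Agent.Results.MP_ede373_nt.OrdinaryWindows
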