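import Pool.Agent.W5h27.ES.Trf

/-!
# The modular Schanuel conjecture with derivatives for almost all members of rational families of elliptic curves

Let `j` be the modular invariant and let `R` be any nonconstant rational function over `ℚ` with `R(0) ≠ 0, 1728, ∞`, for
instance `R(x) = j(E_x)` for a nonisotrivial family of elliptic curves `E_x` over `ℚ(x)` which has at `x = 0` a good fibre
without complex multiplication by `ℤ[i]`, `ℤ[ρ]`. For algebraic numbers `β_i` we consider the points `z_i` of the upper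
half-plane with `j(z_i) = R(1/β_i)`. If the `z_i` are not special and pairwise not equivalent under `GL_2(ℚ)`, the
conjecture predicts that the `3 k` numbers `z_i`, `j'(z_i)`, `j''(z_i)` are algebraically independent.

Let `Z_m(T)` be the set of all algebraic integers of degree at most `m` whose conjugates have absolute value at
most `T`. We prove that for all `q`, `k`, `m`, `d`, `δ` there are `c > 0` and `C` such that for all complex numbers
`w_1, …, w_q` and all `T ≥ 1`, outside at most `C T^(-c) |Z_m(T)|^k` of the `k`-tuples `(β_1, …, β_k)` of elements of `Z_m(T)`,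
for **all** points `z_i` with `j(z_i) = R(1/β_i)` and all logarithms `ℓ_i` of `β_i` every relation of degree at most `δ`
between the `4 k` numbers `z_i`, `j'(z_i)`, `j''(z_i)`, `ℓ_i`, with coefficients which are polynomials in `w_1, …, w_q` over a
number field of degree at most `d` (any number field, it may contain the `β_i`), is trivial: the polynomial is zero after
the substitution of the numbers `w_1, …, w_q`. There is no bound for the heights of the coefficients.

`MP_ede373_nt.IntegralInvariants` and `MP_f58a57_nt.AlgebraicInvariants` are about points with integral invariants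
`j(z_i)`, which are large: the case `R(x) = 1/x` of a family with multiplicative reduction at `x = 0`. Here the invariants
`j(z_i)` are near the number `R(0)`, the points `z_i` modulo `SL_2(ℤ)` stay in a compact set.

Proof. Let `M(z)` be the matrix with the rows `φ, z φ` and `θ, z θ + 1/φ`, `φ^2 = -j'/j`, `θ = φ'/φ^2`, of determinant `1`; it is
a solution of the linear differential equation of `j`, which has rational coefficients as an equation with respect to
`x`, `j(z) = R(x)`. The fundamental matrix `Ψ(x)` of this equation with `Ψ(0) = 1` has entries in `ℚ[[x]]`; we prove that they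
are G-functions which satisfy Galochkin's condition, by specialising the estimates for the iterated system which are known
from the cusp, and that all algebraic relations between them over `ℂ(x)` come from the determinant, by means of the
algebraic independence of `z`, `j`, `j'`, `j''`. All points `z` with `j(z) = R(x)`, `x` small, are given by
`M(z) = ± Ψ(x) C`, where the entries of `C` belong to a space of finite dimension over `ℚ`, which does not depend on `x`
(the `ℚ`-linear combinations of the entries of finitely many matrices `M(z_0)`, `j(z_0) = R(0)`). The theorem of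
`Pool.Agent.Y916.Af` (Siegel's method for shifted G-functions at algebraic points of bounded degree) says that for
almost all tuples all relations between values of the functions `Ψ` and logarithms come from the functional relations.
-/

set_option autoImplicit false

namespace Pool.Agent.Results.MP_ede373_nt.RationalFamilies

/-- the normalised Eisenstein series of weight `4` -/
noncomputable def E4 (τ : ℂ) : ℂ :=
  1 + 240 * ∑' m : ℕ, ((ArithmeticFunction.sigma 3 (m + 1) : ℕ) : ℂ) *
    Complex.exp (2 * (Real.pi : ℂ) * Complex.I * ((m : ℂ) + 1) * τ)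

/-- the normalised Eisenstein series of weight `6` -/
noncomputable def E6 (τ : ℂ) : ℂ :=
  1 - 504 * ∑' m : ℕ, ((ArithmeticFunction.sigma 5 (m + 1) : ℕ) : ℂ) *
    Complex.exp (2 * (Real.pi : ℂ) * Complex.I * ((m : ℂ) + 1) * τ)

/-- the modular invariant `j = q⁻¹ + 744 + 196884 q + ⋯` -/
noncomputable def J (τ : ℂ) : ℂ := 1728 * E4 τ ^ 3 / (E4 τ ^ 3 - E6 τ ^ 2)

/-- the numbers `z`, `j'(z)`, `j''(z)`, `ℓ` -/
noncomputable def numbers (z ℓ : ℂ) : Fin 4 → ℂ := ![z, deriv J z, deriv (deriv J) z, ℓ]

/-- The algebraic integers of degree at most `m` all of whose conjugates have absolute value at most `T`. -/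
def Z (m T : ℕ) : Set ℂ :=
  {ξ | IsIntegral ℤ ξ ∧ (minpoly ℚ ξ).natDegree ≤ m ∧ ∀ z : ℂ, Polynomial.aeval z (minpoly ℚ ξ) = 0 → ‖z‖ ≤ T}

/-- The value at `x` of the rational function `f / g`. -/
noncomputable def ratio (f g : Polynomial ℤ) (x : ℂ) : ℂ := Polynomial.aeval x f / Polynomial.aeval x g

/-- The numbers `w_1, …, w_q` and `numbers (z_1) (ℓ_1), …, numbers (z_k) (ℓ_k)`. -/
noncomputable def values {q k : ℕ} (w : Fin q → ℂ) (z ℓ : Fin k → ℂ) : Fin q ⊕ Fin k × Fin 4 → ℂ :=
  Sum.elim w fun v => numbers (z v.1) (ℓ v.1) v.2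

/-- The numbers `w_1, …, w_q` and `4 k` variables. -/
noncomputable def generic {q k : ℕ} (w : Fin q → ℂ) : Fin q ⊕ Fin k × Fin 4 → MvPolynomial (Fin k × Fin 4) ℂ :=
  Sum.elim (fun o => MvPolynomial.C (w o)) MvPolynomial.X

/-- For some points `z_i` of the upper half-plane with `j(z_i) = f(1/β_i) / g(1/β_i)` and some `ℓ_i` with `exp ℓ_i = β_i` some
polynomial of degree at most `δ` over a number field of degree at most `d` vanishes at `w_1, …, w_q` and the `4 k` numbers,
but not after the substitution of `w_1, …, w_q` only. -/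
def Exceptional (f g : Polynomial ℤ) (δ d : ℕ) {q k : ℕ} (w : Fin q → ℂ) (β : Fin k → ℂ) : Prop :=
  ∃ z ℓ : Fin k → ℂ, (∀ i, 0 < (z i).im ∧ J (z i) = ratio f g (1 / β i) ∧ Complex.exp (ℓ i) = β i) ∧
    ∃ K : IntermediateField ℚ ℂ, FiniteDimensional ℚ K ∧ Module.finrank ℚ K ≤ d ∧
    ∃ P : MvPolynomial (Fin q ⊕ Fin k × Fin 4) K, P.totalDegree ≤ δ ∧
      MvPolynomial.aeval (values w z ℓ) P = 0 ∧ MvPolynomial.aeval (generic (k := k) w) P ≠ 0

lemma gen_eval {q k : ℕ} (K : IntermediateField ℚ ℂ) (w : Fin q → ℂ) (u : Fin k × Fin 4 → ℂ)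
    (P : MvPolynomial (Fin q ⊕ Fin k × Fin 4) K) :
    MvPolynomial.eval u (MvPolynomial.aeval (generic (k := k) w) P) = MvPolynomial.aeval (Sum.elim w u) P := by
  have h2 : ((MvPolynomial.aeval u : MvPolynomial (Fin k × Fin 4) ℂ →ₐ[ℂ] ℂ).restrictScalars K).comp
      (MvPolynomial.aeval (generic (k := k) w) : MvPolynomial (Fin q ⊕ Fin k × Fin 4) K →ₐ[K] MvPolynomial (Fin k × Fin 4) ℂ)
      = MvPolynomial.aeval (Sum.elim w u) := by
    apply MvPolynomial.algHom_ext
    intro v
    rw [AlgHom.comp_apply, MvPolynomial.aeval_X, MvPolynomial.aeval_X, AlgHom.restrictScalars_apply]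
    rcases v with o | v
    · rw [generic, Sum.elim_inl, Sum.elim_inl, MvPolynomial.aeval_C]
      rfl
    · rw [generic, Sum.elim_inr, Sum.elim_inr, MvPolynomial.aeval_X]
  rw [← h2, AlgHom.comp_apply, AlgHom.restrictScalars_apply]
  rfl

lemma J_eq : J = Pool.Agent.TH21.MS.jj := by
  have h4 : E4 = Pool.Agent.TH21.MS.E4 := funext Pool.Agent.Y120.J.E4_same
  have h6 : E6 = Pool.Agent.TH21.MS.E6 := funext Pool.Agent.Y120.J.E6_same
  funext τ
  unfold J Pool.Agent.TH21.MS.jj
  rw [h4, h6]

lemma exc {f g : Polynomial ℤ} {δ d q k : ℕ} {w : Fin q → ℂ} {β : Fin k → ℂ} (h : Exceptional f g δ d w β) :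
    Pool.Agent.W5h27.ES.ExcR f g δ d w β := by
  obtain ⟨z, ℓ, hz, K, hK, hKd, P, hP, hP0, hPg⟩ := h
  refine ⟨fun i => ⟨z i, (hz i).1⟩, ℓ, fun i => ?_, fun i => (hz i).2.2, K, hK, hKd, P, hP, ?_, ?_⟩
  · have h1 := (hz i).2.1
    rw [J_eq] at h1
    exact h1
  · have h1 : (Sum.elim w fun v : Fin k × Fin 4 => Pool.Agent.W5h27.ES.nu (z v.1) (ℓ v.1) v.2) = values w z ℓ := by
      unfold values numbers Pool.Agent.W5h27.ES.nu
      rw [J_eq]
    rw [← h1] at hP0
    exact hP0
  · by_contra hcon
    push Not at hcon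
    apply hPg
    refine MvPolynomial.funext fun u => ?_
    rw [map_zero, gen_eval]
    exact hcon u

/-- Let `f / g` be a nonconstant rational function over `ℚ` whose value at `0` is not `∞`, `0` or `1728`. For all `q`, `k`,
`m ≥ 1`, `d`, `δ` there are `c > 0` and `C` such that for all `w_1, …, w_q` and all `T ≥ 1` at most `C T^(-c) |Z_m(T)|^k` of
the `k`-tuples of elements of the finite set `Z_m(T)` are exceptional. -/
theorem result (f g : Polynomial ℤ) (hg : g.eval 0 ≠ 0) (hf : f.eval 0 ≠ 0) (hfg : f.eval 0 ≠ 1728 * g.eval 0)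
    (hR : Polynomial.C (g.eval 0) * f ≠ Polynomial.C (f.eval 0) * g) (q k m d δ : ℕ) (hm : 1 ≤ m) :
    ∃ c : ℝ, 0 < c ∧ ∃ C : ℝ, 0 ≤ C ∧ ∀ (w : Fin q → ℂ) (T : ℕ), 1 ≤ T →
    (Z m T).Finite ∧ ({β : Fin k → ℂ | (∀ i, β i ∈ Z m T) ∧ Exceptional f g δ d w β}.ncard : ℝ) ≤
      C * (T : ℝ) ^ (-c) * ((Z m T).ncard : ℝ) ^ k := by
  rw [← Polynomial.coeff_zero_eq_eval_zero] at hg hf
  rw [← Polynomial.coeff_zero_eq_eval_zero, ← Polynomial.coeff_zero_eq_eval_zero] at hfg hR
  obtain ⟨c, hc, C, hC, h⟩ := Pool.Agent.W5h27.ES.tupR hf hfg hg hR q k m d δ hm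
  refine ⟨c, hc, C, hC, fun w T hT => ?_⟩
  obtain ⟨h1, h2⟩ := h w T hT
  refine ⟨h1, le_trans ?_ h2⟩
  have hsub : {β : Fin k → ℂ | (∀ i, β i ∈ Z m T) ∧ Exceptional f g δ d w β} ⊆
      {β : Fin k → ℂ | (∀ i, Pool.Agent.Y916.Sl.SInt m T (β i)) ∧ Pool.Agent.W5h27.ES.ExcR f g δ d w β} :=
    fun β hβ => ⟨hβ.1, exc hβ.2⟩
  have hfin : {β : Fin k → ℂ | (∀ i, Pool.Agent.Y916.Sl.SInt m T (β i)) ∧
      Pool.Agent.W5h27.ES.ExcR f g δ d w β}.Finite := by
    refine (Set.Finite.pi' fun _ : Fin k => h1).subset fun β hβ => ?_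
    exact hβ.1
  exact_mod_cast Set.ncard_le_ncard hsub hfin

end Pool.Agent.Results.MP_ede373_nt.RationalFamilies
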